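import Pool.Agent.Lib.MP_09393f_co.Own

/-!
# Problem MP_09393f_co, Question Q1

The cop number is unbounded on Eulerian planar digraphs, even on oriented ones (no two arcs are
opposite to each other), and the robber has a positional strategy.
-/

namespace Pool.Agent.Results.MP_09393f_co.OrientedUnbounded

/-- For every `k` there is a finite nonempty digraph without loops and without pairs of opposite
arcs, strongly connected, with in-degree equal to out-degree at every vertex, with a planar
drawing, and a starting rule `start` and a positional strategy `esc` of the robber such that,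
whatever the `k` cops do (they move first), the robber moves legally and is never caught. -/
theorem result (k : ℕ) : ∃ (V : Type) (_ : Finite V) (_ : Nonempty V) (A : V → V → Prop),
    (∀ u v, A u v → ¬ A v u) ∧
    (∀ u v, Relation.ReflTransGen A u v) ∧
    (∀ v, Set.ncard {u | A u v} = Set.ncard {w | A v w}) ∧
    (∃ (f : V → EuclideanSpace ℝ (Fin 2))
      (γ : V → V → unitInterval → EuclideanSpace ℝ (Fin 2)), Function.Injective f ∧
      (∀ u v, A u v → Continuous (γ u v) ∧ Function.Injective (γ u v) ∧
        γ u v 0 = f u ∧ γ u v 1 = f v ∧ ∀ w s, γ u v s = f w → w = u ∨ w = v) ∧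
      (∀ u v x y, A u v → A x y → (u, v) ≠ (x, y) → ∀ s t, γ u v s = γ x y t →
        ∃ z, (z = u ∨ z = v) ∧ (z = x ∨ z = y) ∧ γ u v s = f z)) ∧
    (∃ (start : (Fin k → V) → V) (esc : (Fin k → V) → V → V),
      ∀ (c : ℕ → Fin k → V) (r : ℕ → V),
        (∀ t i, c (t + 1) i = c t i ∨ A (c t i) (c (t + 1) i)) →
        r 0 = start (c 0) → (∀ t, r (t + 1) = esc (c (t + 1)) (r t)) →
        ∀ t, (r (t + 1) = r t ∨ A (r t) (r (t + 1))) ∧
          ∀ i, c t i ≠ r t ∧ c (t + 1) i ≠ r t) :=
  CR.own k

end Pool.Agent.Results.MP_09393f_co.OrientedUnbounded
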